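import Pool.Agent.H49.LX.Cmp

/-!
# CH-ALL, LTEX: conjugation modulo degree `d`

PROOFS.  `conj_deg`: `u (G (x, y)) = G' (u x, u y)`, `u = x + c x ^ d`, modulo degree `d + 1`:
`G (x, y) + c (x + y) ^ d = G' (x, y) + c x ^ d + c y ^ d`.  `conj_low`: modulo degree `d`.
-/

open PowerSeries

namespace Pool.Agent.H49.LX

open Pool.Agent.H13.CA

variable {R : Type*} [CommRing R]

/-! ### the filtration by degree -/

section fil

variable {σ : Type*}

private def J (σ R : Type*) [CommRing R] (n : ℕ) : Ideal (MvPowerSeries σ R) where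
  carrier := {f | ∀ e : σ →₀ ℕ, e.degree < n → MvPowerSeries.coeff e f = 0}
  add_mem' := by
    intro f g hf hg e he
    rw [map_add, hf e he, hg e he, add_zero]
  zero_mem' := by
    intro e _
    exact map_zero _
  smul_mem' := by
    intro c f hf e he
    classical
    rw [smul_eq_mul, MvPowerSeries.coeff_mul]
    refine Finset.sum_eq_zero fun u hu => ?_
    rw [Finset.HasAntidiagonal.mem_antidiagonal] at hu
    have h1 : u.1.degree + u.2.degree = e.degree := by
      rw [← hu, map_add]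
    rw [hf u.2 (by omega), mul_zero]

private theorem mem_J {n : ℕ} {f : MvPowerSeries σ R} :
    f ∈ J σ R n ↔ ∀ e : σ →₀ ℕ, e.degree < n → MvPowerSeries.coeff e f = 0 := Iff.rfl

private theorem J_mono {a b : ℕ} (h : a ≤ b) {f : MvPowerSeries σ R} (hf : f ∈ J σ R b) :
    f ∈ J σ R a := fun e he => hf e (lt_of_lt_of_le he h)

private theorem J_zero (f : MvPowerSeries σ R) : f ∈ J σ R 0 := fun e he => absurd he (by omega)

private theorem J_mul {a b : ℕ} {f g : MvPowerSeries σ R} (hf : f ∈ J σ R a) (hg : g ∈ J σ R b) :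
    f * g ∈ J σ R (a + b) := by
  classical
  intro e he
  rw [MvPowerSeries.coeff_mul]
  refine Finset.sum_eq_zero fun u hu => ?_
  rw [Finset.HasAntidiagonal.mem_antidiagonal] at hu
  have h1 : u.1.degree + u.2.degree = e.degree := by
    rw [← hu, map_add]
  by_cases h2 : u.1.degree < a
  · rw [hf u.1 h2, zero_mul]
  · rw [hg u.2 (by omega), mul_zero]

private theorem J_one {f : MvPowerSeries σ R} (hf : MvPowerSeries.constantCoeff f = 0) :
    f ∈ J σ R 1 := by
  intro e he
  have h1 : e = 0 := by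
    rw [← Finsupp.degree_eq_zero_iff]
    omega
  rw [h1, MvPowerSeries.coeff_zero_eq_constantCoeff_apply, hf]

private theorem J_pow {f : MvPowerSeries σ R} (hf : f ∈ J σ R 1) (i : ℕ) : f ^ i ∈ J σ R i := by
  induction i with
  | zero => exact J_zero _
  | succ i ih =>
    rw [pow_succ]
    exact J_mul ih hf

private theorem J_pow_sub {a a' : MvPowerSeries σ R} (ha : a ∈ J σ R 1) (ha' : a' ∈ J σ R 1)
    {m : ℕ} (hm : 1 ≤ m) (h : a - a' ∈ J σ R m) (i : ℕ) :
    a ^ i - a' ^ i ∈ J σ R (i + m - 1) := by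
  induction i with
  | zero =>
    rw [pow_zero, pow_zero, sub_self]
    exact Ideal.zero_mem _
  | succ i ih =>
    have h1 : a ^ (i + 1) - a' ^ (i + 1) = a ^ i * (a - a') + (a ^ i - a' ^ i) * a' := by ring
    rw [h1]
    refine Ideal.add_mem _ ?_ ?_
    · exact J_mono (by omega) (J_mul (J_pow ha i) h)
    · exact J_mono (by omega) (J_mul ih ha')

private theorem J_prod_sub {a b a' b' : MvPowerSeries σ R} (ha : a ∈ J σ R 1) (hb : b ∈ J σ R 1)
    (ha' : a' ∈ J σ R 1) (hb' : b' ∈ J σ R 1) {m : ℕ} (hm : 1 ≤ m) (h : a - a' ∈ J σ R m)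
    (h' : b - b' ∈ J σ R m) (i j : ℕ) :
    a ^ i * b ^ j - a' ^ i * b' ^ j ∈ J σ R (i + j + m - 1) := by
  have h1 : a ^ i * b ^ j - a' ^ i * b' ^ j = a ^ i * (b ^ j - b' ^ j) + (a ^ i - a' ^ i) * b' ^ j := by
    ring
  rw [h1]
  refine Ideal.add_mem _ ?_ ?_
  · exact J_mono (by omega) (J_mul (J_pow ha i) (J_pow_sub hb hb' hm h' j))
  · exact J_mono (by omega) (J_mul (J_pow_sub ha ha' hm h i) (J_pow hb' j))

private theorem coeff_pair {a b : MvPowerSeries σ R} (ha : PowerSeries.HasSubst a)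
    (hb : PowerSeries.HasSubst b) (f : MvPowerSeries (Fin 2) R) (e : σ →₀ ℕ) :
    MvPowerSeries.coeff e (MvPowerSeries.subst ![a, b] f) =
      ∑ᶠ d : Fin 2 →₀ ℕ, MvPowerSeries.coeff d f * MvPowerSeries.coeff e (a ^ d 0 * b ^ d 1) := by
  rw [MvPowerSeries.coeff_subst (hasSubst_pair ha hb)]
  refine finsum_congr fun d => ?_
  rw [smul_eq_mul, Finsupp.prod_fintype _ _ (fun i => pow_zero _), Fin.prod_univ_two]
  rfl

private theorem hs_J {a : MvPowerSeries σ R} (ha : a ∈ J σ R 1) : PowerSeries.HasSubst a := by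
  refine PowerSeries.HasSubst.of_constantCoeff_zero ?_
  rw [← MvPowerSeries.coeff_zero_eq_constantCoeff_apply]
  exact ha 0 (by simp)

private theorem deg2 (d : Fin 2 →₀ ℕ) : d.degree = d 0 + d 1 := by
  rw [Finsupp.degree_eq_sum, Fin.sum_univ_two]

private theorem subst_mem {n : ℕ} {f : MvPowerSeries (Fin 2) R} (hf : f ∈ J (Fin 2) R n)
    {a b : MvPowerSeries σ R} (ha : a ∈ J σ R 1) (hb : b ∈ J σ R 1) :
    MvPowerSeries.subst ![a, b] f ∈ J σ R n := by
  intro e he
  rw [coeff_pair (hs_J ha) (hs_J hb)]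
  refine finsum_eq_zero_of_forall_eq_zero fun d => ?_
  by_cases hd : d.degree < n
  · rw [hf d hd, zero_mul]
  · rw [J_mul (J_pow ha (d 0)) (J_pow hb (d 1)) e (by
      rw [← deg2]
      omega), mul_zero]

private theorem subst_sub_mem {n m : ℕ} (hm : 1 ≤ m) {f : MvPowerSeries (Fin 2) R}
    (hf : f ∈ J (Fin 2) R n) {a b a' b' : MvPowerSeries σ R} (ha : a ∈ J σ R 1) (hb : b ∈ J σ R 1)
    (ha' : a' ∈ J σ R 1) (hb' : b' ∈ J σ R 1) (h : a - a' ∈ J σ R m) (h' : b - b' ∈ J σ R m) :
    MvPowerSeries.subst ![a, b] f - MvPowerSeries.subst ![a', b'] f ∈ J σ R (n + m - 1) := by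
  intro e he
  rw [map_sub, coeff_pair (hs_J ha) (hs_J hb), coeff_pair (hs_J ha') (hs_J hb'), sub_eq_zero]
  refine finsum_congr fun d => ?_
  by_cases hd : d.degree < n
  · rw [hf d hd, zero_mul, zero_mul]
  · congr 1
    rw [← sub_eq_zero, ← map_sub]
    exact J_prod_sub ha hb ha' hb' hm h h' (d 0) (d 1) e (by
      rw [← deg2]
      omega)

end fil

/-- `H = x + y` modulo degree two -/
private theorem lin_mem (H : FormalGroup R) :
    H.toPowerSeries - (MvPowerSeries.X 0 + MvPowerSeries.X 1) ∈ J (Fin 2) R 2 := by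
  classical
  intro e he
  rw [deg2] at he
  have h00 : MvPowerSeries.coeff (0 : Fin 2 →₀ ℕ) H.toPowerSeries = 0 := by
    rw [MvPowerSeries.coeff_zero_eq_constantCoeff_apply]
    exact H.zero_constantCoeff
  have hcase : e = 0 ∨ e = Finsupp.single 0 1 ∨ e = Finsupp.single 1 1 := by
    have h1 : (e 0 = 0 ∧ e 1 = 0) ∨ (e 0 = 1 ∧ e 1 = 0) ∨ (e 0 = 0 ∧ e 1 = 1) := by omega
    rcases h1 with ⟨h2, h3⟩ | ⟨h2, h3⟩ | ⟨h2, h3⟩
    · left
      ext s
      fin_cases s
      · simpa using h2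
      · simpa using h3
    · right
      left
      ext s
      fin_cases s
      · simpa using h2
      · simpa using h3
    · right
      right
      ext s
      fin_cases s
      · simpa using h2
      · simpa using h3
  rcases hcase with rfl | rfl | rfl
  · rw [map_sub, map_add, h00]
    simp
  · rw [map_sub, map_add, H.lin_coeff_X, MvPowerSeries.coeff_X, MvPowerSeries.coeff_X,
      if_pos rfl, if_neg]
    · ring
    · intro h1
      have h2 := DFunLike.congr_fun h1 0
      simp at h2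
  · rw [map_sub, map_add, H.lin_coeff_Y, MvPowerSeries.coeff_X, MvPowerSeries.coeff_X,
      if_pos rfl, if_neg]
    · ring
    · intro h1
      have h2 := DFunLike.congr_fun h1 0
      simp at h2

private theorem subst_XX {n : ℕ} {a b : MvPowerSeries (Fin n) R}
    (ha : a ∈ J (Fin n) R 1) (hb : b ∈ J (Fin n) R 1) :
    MvPowerSeries.subst ![a, b] (MvPowerSeries.X 0 + MvPowerSeries.X 1 : MvPowerSeries (Fin 2) R) =
      a + b := by
  have h := hasSubst_pair (hs_J ha) (hs_J hb)
  rw [MvPowerSeries.subst_add h, MvPowerSeries.subst_X h, MvPowerSeries.subst_X h]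
  rfl

private theorem subst_sub' {n : ℕ} {a b : MvPowerSeries (Fin n) R}
    (ha : a ∈ J (Fin n) R 1) (hb : b ∈ J (Fin n) R 1) (f g : MvPowerSeries (Fin 2) R) :
    MvPowerSeries.subst ![a, b] (f - g) = MvPowerSeries.subst ![a, b] f -
      MvPowerSeries.subst ![a, b] g := by
  have h := hasSubst_pair (hs_J ha) (hs_J hb)
  rw [← MvPowerSeries.coe_substAlgHom h, map_sub]


private theorem X_mem {n : ℕ} (i : Fin n) : (MvPowerSeries.X i : MvPowerSeries (Fin n) R) ∈ J (Fin n) R 1 :=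
  J_one (MvPowerSeries.constantCoeff_X i)

private theorem ser_mem {σ : Type*} {a : MvPowerSeries σ R} (ha : a ∈ J σ R 1) {d : ℕ} {v : R⟦X⟧}
    (hv : X ^ d ∣ v) : PowerSeries.subst a v ∈ J σ R d := by
  obtain ⟨w, rfl⟩ := hv
  rw [PowerSeries.subst_mul (hs_J ha), PowerSeries.subst_pow (hs_J ha), PowerSeries.subst_X (hs_J ha)]
  exact Ideal.mul_mem_right _ _ (J_pow ha d)

private theorem subst_u {σ : Type*} {a : MvPowerSeries σ R} (ha : a ∈ J σ R 1) (v : R⟦X⟧) :
    PowerSeries.subst a (X + v) = a + PowerSeries.subst a v := by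
  rw [PowerSeries.subst_add (hs_J ha), PowerSeries.subst_X (hs_J ha)]

/-- the linear part and the rest of `G' (x + v (x), y + v (y))` -/
private theorem right_mem (G' : FormalGroup R) {d : ℕ} (hd : 1 ≤ d) {v : R⟦X⟧} (hv : X ^ d ∣ v) :
    MvPowerSeries.subst ![MvPowerSeries.X 0 + PowerSeries.subst (MvPowerSeries.X 0 : MvPowerSeries (Fin 2) R) v,
        MvPowerSeries.X 1 + PowerSeries.subst (MvPowerSeries.X 1 : MvPowerSeries (Fin 2) R) v] G'.toPowerSeries -
      (G'.toPowerSeries + (PowerSeries.subst (MvPowerSeries.X 0 : MvPowerSeries (Fin 2) R) v +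
        PowerSeries.subst (MvPowerSeries.X 1 : MvPowerSeries (Fin 2) R) v)) ∈ J (Fin 2) R (d + 1) := by
  have h0 := X_mem (R := R) (0 : Fin 2)
  have h1 := X_mem (R := R) (1 : Fin 2)
  have e0 := ser_mem h0 hv
  have e1 := ser_mem h1 hv
  have a0 := Ideal.add_mem _ h0 (J_mono hd e0)
  have a1 := Ideal.add_mem _ h1 (J_mono hd e1)
  have h2 := subst_sub_mem hd (lin_mem G') a0 a1 h0 h1
    (by rw [add_sub_cancel_left]; exact e0) (by rw [add_sub_cancel_left]; exact e1)
  rw [subst_sub' a0 a1, subst_sub' h0 h1, subst_XX a0 a1, subst_XX h0 h1, pair_X,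
    MvPowerSeries.subst_self] at h2
  have h3 : (2 + d - 1 : ℕ) = d + 1 := by omega
  rw [h3] at h2
  refine (congrArg (· ∈ J (Fin 2) R (d + 1)) ?_).mp h2
  simp only [id]
  ring

private theorem c2_of_mem {d : ℕ} {f : MvPowerSeries (Fin 2) R} (hf : f ∈ J (Fin 2) R d) {i j : ℕ}
    (h : i + j < d) : c2 f i j = 0 := by
  refine hf _ ?_
  rw [map_add, Finsupp.degree_single, Finsupp.degree_single]
  exact h

theorem conj_low {G G' : FormalGroup R} {d : ℕ} {u : R⟦X⟧} (h : IsHom G G' u)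
    (hu : X ^ d ∣ u - X) : EqD d G.toPowerSeries G'.toPowerSeries := by
  rcases Nat.eq_zero_or_pos d with rfl | hd
  · intro i j hij
    omega
  obtain ⟨v, rfl⟩ : ∃ v, u = X + v := ⟨u - X, by ring⟩
  rw [add_sub_cancel_left] at hu
  have h2 := h.2
  have hG := J_one G.zero_constantCoeff
  rw [subst_u hG, subst_u (X_mem 0), subst_u (X_mem 1)] at h2
  have h3 := J_mono (Nat.le_succ d) (right_mem G' hd hu)
  rw [← h2] at h3
  have h4 := ser_mem hG hu
  have h5 := Ideal.add_mem _ (ser_mem (X_mem (R := R) (0 : Fin 2)) hu) (ser_mem (X_mem (R := R) (1 : Fin 2)) hu)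
  have h6 : G.toPowerSeries - G'.toPowerSeries ∈ J (Fin 2) R d := by
    have h7 := Ideal.add_mem _ (Ideal.sub_mem _ h3 h4) h5
    refine (congrArg (· ∈ J (Fin 2) R d) ?_).mp h7
    ring
  intro i j hij
  have h8 := c2_of_mem h6 hij
  rw [c2, map_sub, sub_eq_zero] at h8
  exact h8

theorem conj_deg {G G' : FormalGroup R} {d : ℕ} (hd : 2 ≤ d) {c : R}
    (h : IsHom G G' (X + C c * X ^ d)) :
    EqD d G.toPowerSeries G'.toPowerSeries ∧
      ∀ i, 0 < i → i < d → c2 G'.toPowerSeries i (d - i) =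
        c2 G.toPowerSeries i (d - i) + d.choose i • c := by
  classical
  have hv : (X : R⟦X⟧) ^ d ∣ C c * X ^ d := Dvd.intro_left _ rfl
  refine ⟨conj_low h (by rw [add_sub_cancel_left]; exact hv), fun i hi hid => ?_⟩
  have h2 := h.2
  have hG := J_one G.zero_constantCoeff
  rw [subst_u hG, subst_u (X_mem 0), subst_u (X_mem 1)] at h2
  have h3 := right_mem G' (by omega) hv
  rw [← h2] at h3
  have hs : ∀ {a : MvPowerSeries (Fin 2) R}, a ∈ J (Fin 2) R 1 →
      PowerSeries.subst a (C c * X ^ d : R⟦X⟧) = MvPowerSeries.C c * a ^ d := by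
    intro a ha
    rw [← PowerSeries.smul_eq_C_mul, PowerSeries.subst_smul (hs_J ha), PowerSeries.subst_pow (hs_J ha),
      PowerSeries.subst_X (hs_J ha), MvPowerSeries.smul_eq_C_mul]
  rw [hs hG, hs (X_mem 0), hs (X_mem 1)] at h3
  have h4 : G.toPowerSeries ^ d - (MvPowerSeries.X 0 + MvPowerSeries.X 1) ^ d ∈ J (Fin 2) R (d + 1) := by
    have h5 := J_pow_sub hG (Ideal.add_mem _ (X_mem (R := R) (0 : Fin 2)) (X_mem (R := R) (1 : Fin 2)))
      (by omega : 1 ≤ 2) (lin_mem G) d
    have h6 : d + 2 - 1 = d + 1 := by omega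
    rwa [h6] at h5
  have h7 : G.toPowerSeries + MvPowerSeries.C c * (MvPowerSeries.X 0 + MvPowerSeries.X 1) ^ d -
      (G'.toPowerSeries + (MvPowerSeries.C c * MvPowerSeries.X 0 ^ d +
        MvPowerSeries.C c * MvPowerSeries.X 1 ^ d)) ∈ J (Fin 2) R (d + 1) := by
    have h8 := Ideal.sub_mem _ h3 (Ideal.mul_mem_left _ (MvPowerSeries.C c) h4)
    refine (congrArg (· ∈ J (Fin 2) R (d + 1)) ?_).mp h8
    ring
  have h9 := c2_of_mem h7 (by omega : i + (d - i) < d + 1)
  have hbin : MvPowerSeries.coeff (Finsupp.single 0 i + Finsupp.single 1 (d - i))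
      ((MvPowerSeries.X 0 + MvPowerSeries.X 1 : MvPowerSeries (Fin 2) R) ^ d) = (d.choose i : R) := by
    rw [add_pow, map_sum, Finset.sum_eq_single i]
    · rw [← map_natCast (MvPowerSeries.C (σ := Fin 2) (R := R)), MvPowerSeries.coeff_mul_C,
        MvPowerSeries.X_pow_eq, MvPowerSeries.X_pow_eq, MvPowerSeries.monomial_mul_monomial,
        MvPowerSeries.coeff_monomial, if_pos rfl]
      ring
    · intro m _ hm
      rw [← map_natCast (MvPowerSeries.C (σ := Fin 2) (R := R)), MvPowerSeries.coeff_mul_C,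
        MvPowerSeries.X_pow_eq, MvPowerSeries.X_pow_eq, MvPowerSeries.monomial_mul_monomial,
        MvPowerSeries.coeff_monomial, if_neg, zero_mul]
      intro h10
      have h11 := DFunLike.congr_fun h10 0
      simp at h11
      exact hm h11.symm
    · intro h10
      exact absurd (Finset.mem_range.mpr (by omega)) h10
  have hX0 : MvPowerSeries.coeff (Finsupp.single 0 i + Finsupp.single 1 (d - i))
      ((MvPowerSeries.X 0 : MvPowerSeries (Fin 2) R) ^ d) = 0 := by
    rw [MvPowerSeries.X_pow_eq, MvPowerSeries.coeff_monomial, if_neg]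
    intro h10
    have h11 := DFunLike.congr_fun h10 1
    simp at h11
    omega
  have hX1 : MvPowerSeries.coeff (Finsupp.single 0 i + Finsupp.single 1 (d - i))
      ((MvPowerSeries.X 1 : MvPowerSeries (Fin 2) R) ^ d) = 0 := by
    rw [MvPowerSeries.X_pow_eq, MvPowerSeries.coeff_monomial, if_neg]
    intro h10
    have h11 := DFunLike.congr_fun h10 0
    simp at h11
    omega
  rw [c2, map_sub, map_add, map_add, map_add, MvPowerSeries.coeff_C_mul, MvPowerSeries.coeff_C_mul,
    MvPowerSeries.coeff_C_mul, hbin, hX0, hX1, mul_zero, add_zero, add_zero, sub_eq_zero] at h9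
  rw [nsmul_eq_mul, mul_comm]
  exact h9.symm

end Pool.Agent.H49.LX
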