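import Pool.Agent.H49.LX.Cmp
import Pool.Agent.H74.LA.Fix
import Pool.Agent.H98.CA.Sum
import Pool.Agent.H91.LX.Mul

/-!
# CH-ALL, LTEX: `[n]` modulo degree `d + 1`

PROOFS.  `mul_cmp`: induction on `n`: `G (A, x) - H (B, x) = D (A, x) + (H (A, x) - H (B, x))`, `A = [n]_G = n x + ..`
(`H74.LA.coeff_one_mulSer`), `B = [n]_H`: the coefficient of `x ^ d` is `∑ a_i n ^ i + coeff d (A - B)`
(`a_0 = a_d = 0`: `c2_left`, `c2_right`).
`sum_pow`: `∑_(0 < i < d) C (d, i) s ^ i = (s + 1) ^ d - s ^ d - 1`, sum over `s < p`: `p ^ d - p`; divide by `p`.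
-/

open PowerSeries

namespace Pool.Agent.H49.LX

open Pool.Agent.H13.CA

variable {R : Type*} [CommRing R]

theorem mul_cmp {G H : FormalGroup R} {d : ℕ} (hd : 2 ≤ d)
    (h : EqD d G.toPowerSeries H.toPowerSeries) (n : ℕ) :
    (∀ i, i < d → coeff i (mulSer G n) = coeff i (mulSer H n)) ∧
      coeff d (mulSer G n) - coeff d (mulSer H n) =
        ∑ s ∈ Finset.range n, ∑ i ∈ Finset.Ioo 0 d,
          (s : R) ^ i * (c2 G.toPowerSeries i (d - i) - c2 H.toPowerSeries i (d - i)) :=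
  H91.LX.mul_cmp hd h n

theorem sum_pow (p : ℕ) [Fact p.Prime] [CharP R p] {m : ℕ} (hm : 1 ≤ m) :
    ∑ s ∈ Finset.range p, ∑ i ∈ Finset.Ioo 0 (p ^ m),
      (s : R) ^ i * ((((p ^ m).choose i / p : ℕ)) : R) = -1 :=
  H98.CA.sum_pow p hm

end Pool.Agent.H49.LX
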