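import Pool.Agent.H49.LX.Ver
import Pool.Agent.H61.CA.Std

/-!
# CH-ALL, LTEX: every automorphism of the special fibre lifts

PROOF.  `f₀ = map C θ`, `G` = conjugate of `F` by `f₀` (`exists_conj`), `special G = special F`
(`IsHom.map constantCoeff`, `target_unique`).  `versal`: `φ`, `u : F.map φ → G`, `red u = X`.
`u⁻¹` (`IsHom.inv'`), `f = u⁻¹ ∘ f₀ : F → F.map φ`, `red f = θ`, unit linear coefficient.
`φ` is bijective (`alg_bij`): `span_coeff_mulSer` for `f`, `N = p ^ (m + 1)`: the coefficients of index `< N` of `mulSer F p`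
generate the maximal ideal (`IsLT`), and so do their images under `φ` (`mulSer_map`); `H61.CA.coord` for
`w i = φ (X i)`: the span of the `φ (X i)` contains all `φ x`, `x` in the maximal ideal; `φ` and the automorphism `ψ` of `coord` agree
(`H84.CA.algHom_ext_mv'`).  `Lift.exists_of`.
-/

open MvPowerSeries

namespace Pool.Agent.H49.LX

open Pool.Agent.H13.CA

/-- an endomorphism of the power series ring whose image generates the maximal ideal is bijective -/
theorem alg_bij {k : Type*} [Field k] {m : ℕ}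
    (φ : MvPowerSeries (Fin m) k →ₐ[k] MvPowerSeries (Fin m) k)
    (h0 : ∀ x, constantCoeff (φ x) = constantCoeff x)
    (h : Istd k m m ≤ (Istd k m m).map (φ : MvPowerSeries (Fin m) k →+* MvPowerSeries (Fin m) k)) :
    ∃ g : MvPowerSeries (Fin m) k ≃ₐ[k] MvPowerSeries (Fin m) k, ∀ x, g x = φ x := by
  have hI : Istd k m m = Ideal.span (Set.range (X : Fin m → MvPowerSeries (Fin m) k)) := by
    unfold Istd
    congr 1
    ext x
    constructor
    · rintro ⟨i, -, rfl⟩
      exact ⟨i, rfl⟩
    · rintro ⟨i, rfl⟩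
      exact ⟨i, i.2, rfl⟩
  have hc : ∀ i, constantCoeff (φ (X i)) = 0 := fun i => by rw [h0, constantCoeff_X]
  have hw : Ideal.span (Set.range fun i => φ (X i)) =
      Ideal.span (Set.range (X : Fin m → MvPowerSeries (Fin m) k)) := by
    refine le_antisymm ?_ ?_
    · rw [Ideal.span_le, ← hI]
      rintro _ ⟨i, rfl⟩
      exact H61.CA.mem_Istd_top.2 (hc i)
    · rw [← hI]
      refine h.trans ?_
      rw [hI, Ideal.map_span, Ideal.span_le]
      rintro _ ⟨_, ⟨i, rfl⟩, rfl⟩
      exact Ideal.subset_span ⟨i, rfl⟩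
  obtain ⟨ψ, hψ, -, -⟩ := H61.CA.coord (fun i => φ (X i)) hw
  have he : φ = (ψ : MvPowerSeries (Fin m) k →ₐ[k] MvPowerSeries (Fin m) k) :=
    H84.CA.algHom_ext_mv' hc fun i => (hψ i).symm
  exact ⟨ψ, fun x => by rw [he]; rfl⟩

private theorem span_lt {k : Type*} [Field k] {p : ℕ} [Fact p.Prime] {m : ℕ}
    {F : FormalGroup (MvPowerSeries (Fin m) k)} (hF : IsLT k p m F) :
    Ideal.span {x | ∃ i, i < p ^ (m + 1) ∧ x = PowerSeries.coeff i (mulSer F p)} =
      Istd k m m := by
  refine le_antisymm ?_ ?_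
  · rw [Ideal.span_le]
    rintro _ ⟨i, hi, rfl⟩
    exact hF.low m le_rfl i hi
  · have hX : ∀ j : ℕ, j ≤ m → Istd k m j ≤
        Ideal.span {x | ∃ i, i < p ^ (m + 1) ∧ x = PowerSeries.coeff i (mulSer F p)} := by
      intro j
      induction j with
      | zero =>
        intro _
        rw [H61.CA.Istd_zero]
        exact bot_le
      | succ j ih =>
        intro hj
        have h1 := ih (by omega)
        conv_lhs => rw [Istd]
        rw [Ideal.span_le]
        rintro _ ⟨i, hi, rfl⟩
        rcases Nat.lt_succ_iff_lt_or_eq.1 hi with h2 | h2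
        · exact h1 (Ideal.subset_span ⟨i, h2, rfl⟩)
        · have h3 := hF.mid i
          rw [h2] at h3
          have h4 := h1 h3
          have h5 : PowerSeries.coeff (p ^ (j + 1)) (mulSer F p) ∈
              Ideal.span {x | ∃ i, i < p ^ (m + 1) ∧ x = PowerSeries.coeff i (mulSer F p)} :=
            Ideal.subset_span ⟨p ^ (j + 1), Nat.pow_lt_pow_right (Fact.out : p.Prime).one_lt
              (by omega), rfl⟩
          have h6 := Ideal.sub_mem _ h5 h4
          rwa [sub_sub_cancel] at h6
    exact hX m le_rfl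

theorem lift_exists {k : Type*} [Field k] (p : ℕ) [Fact p.Prime] [CharP k p] {m : ℕ}
    {F : FormalGroup (MvPowerSeries (Fin m) k)} (hF : IsLT k p m F) {θ : PowerSeries k}
    (hθ : IsHom (special F) (special F) θ) (hu : IsUnit (PowerSeries.coeff 1 θ)) :
    ∃ a : Lift k F, red a.f = θ := by
  have h00 : PowerSeries.map (constantCoeff (σ := Fin m) (R := k))
      (PowerSeries.map (C (σ := Fin m) (R := k)) θ) = θ := by
    ext i
    rw [PowerSeries.coeff_map, PowerSeries.coeff_map, constantCoeff_C]
  set f₀ : PowerSeries (MvPowerSeries (Fin m) k) :=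
    PowerSeries.map (C (σ := Fin m) (R := k)) θ with hf₀
  have h0 : PowerSeries.constantCoeff f₀ = 0 := map_hs hθ.1 _
  have hu0 : IsUnit (PowerSeries.coeff 1 f₀) := by
    rw [hf₀, PowerSeries.coeff_map]
    exact hu.map _
  obtain ⟨G, hG, hGc⟩ := exists_conj F h0 hu0
  have hs : special G = special F := by
    have h1 := hG.map (constantCoeff (σ := Fin m) (R := k))
    rw [h00] at h1
    exact h1.target_unique hθ hu
  obtain ⟨φ, u, hφ, hu1, hu2⟩ := versal p hF (hGc hF.comm) hs
  have hu3 : IsUnit (PowerSeries.coeff 1 u) := by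
    rw [isUnit_iff_constantCoeff]
    have h1 := congrArg (PowerSeries.coeff 1) hu2
    rw [red, PowerSeries.coeff_map, PowerSeries.coeff_one_X] at h1
    rw [h1]
    exact isUnit_one
  obtain ⟨u', hu', hu4, hl, hr⟩ := hu1.inv' hu3
  have hred : red u' = PowerSeries.X := by
    have h1 := congrArg (PowerSeries.map (constantCoeff (σ := Fin m) (R := k))) hl
    rw [map_subst' (hs_zero hu1.1), map_X'] at h1
    have h2 : PowerSeries.map (constantCoeff (σ := Fin m) (R := k)) u = PowerSeries.X := hu2
    rw [h2] at h1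
    have h3 : PowerSeries.subst (PowerSeries.X : PowerSeries k)
        (PowerSeries.map (constantCoeff (σ := Fin m) (R := k)) u') =
          PowerSeries.map (constantCoeff (σ := Fin m) (R := k)) u' := PowerSeries.X_subst _
    rw [h3] at h1
    exact h1
  have hf : IsHom F (F.map (φ : MvPowerSeries (Fin m) k →+* MvPowerSeries (Fin m) k))
      (PowerSeries.subst f₀ u') := hG.comp hu'
  have hfred : red (PowerSeries.subst f₀ u') = θ := by
    rw [red, map_subst' (hs_zero h0), h00]
    have h2 : PowerSeries.map (constantCoeff (σ := Fin m) (R := k)) u' = PowerSeries.X := hred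
    rw [h2, PowerSeries.subst_X (hs_zero hθ.1)]
  have hfu : IsUnit (PowerSeries.coeff 1 (PowerSeries.subst f₀ u' :
      PowerSeries (MvPowerSeries (Fin m) k))) := by
    rw [isUnit_iff_constantCoeff]
    have h1 := congrArg (PowerSeries.coeff 1) hfred
    rw [red, PowerSeries.coeff_map] at h1
    rw [h1]
    exact hu
  have hle : Istd k m m ≤
      (Istd k m m).map (φ : MvPowerSeries (Fin m) k →+* MvPowerSeries (Fin m) k) := by
    have h1 := span_coeff_mulSer hf hfu p (p ^ (m + 1))
    rw [span_lt hF] at h1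
    conv_lhs => rw [h1]
    rw [Ideal.span_le]
    rintro _ ⟨i, hi, rfl⟩
    rw [mulSer_map, PowerSeries.coeff_map]
    exact Ideal.mem_map_of_mem _ (hF.low m le_rfl i hi)
  obtain ⟨g, hg⟩ := alg_bij φ hφ hle
  have hge : (g : MvPowerSeries (Fin m) k →+* MvPowerSeries (Fin m) k) =
      (φ : MvPowerSeries (Fin m) k →+* MvPowerSeries (Fin m) k) := RingHom.ext hg
  obtain ⟨a, -, ha⟩ := Lift.exists_of g (PowerSeries.subst f₀ u') (by rw [hge]; exact hf) hfu
  exact ⟨a, by rw [ha]; exact hfred⟩

end Pool.Agent.H49.LX
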