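import Pool.Agent.H13.CA.Grp

/-!
# CH-ALL, LTEX: comparison of formal group laws modulo degree `d`, over any commutative ring

`c2 f i j`: the coefficient of `x ^ i y ^ j`.  `EqD d f g`: `f` and `g` agree modulo degree `d`.

PROOFS.  `c2_left`, `c2_right`: `G (x, 0) = x` (`FormalGroup.add_zero`, `FormalGroup.zero_add`).
`cmp_symm`: `G (x, y) = G (y, x)`.
`cmp_assoc`: `D = G - H`; modulo degree `d + 1` one has `G (G (x, y), z) - H (H (x, y), z) = D (x + y, z) + D (x, y)`
(`G (A, z) - H (B, z) = D (A, z) + (H (A, z) - H (B, z))`, `A - B = D (x, y)` of degree `≥ d`, `H = x + y` modulo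
degree 2) and the same for `G (x, G (y, z))`: `D (x, y + z) + D (y, z)`; compare the coefficients of
`x ^ i y ^ j z ^ l`, `l = d - i - j`.
-/

open PowerSeries

namespace Pool.Agent.H49.LX

open Pool.Agent.H13.CA

variable {R : Type*} [CommRing R]

/-- the coefficient of `x ^ i y ^ j` -/
noncomputable def c2 (f : MvPowerSeries (Fin 2) R) (i j : ℕ) : R :=
  MvPowerSeries.coeff (Finsupp.single 0 i + Finsupp.single 1 j) f

/-- equality modulo degree `d` -/
def EqD (d : ℕ) (f g : MvPowerSeries (Fin 2) R) : Prop :=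
  ∀ i j, i + j < d → c2 f i j = c2 g i j

/-! ### the filtration by degree -/

section fil

variable {σ : Type*}

private def J (σ R : Type*) [CommRing R] (n : ℕ) : Ideal (MvPowerSeries σ R) where
  carrier := {f | ∀ e : σ →₀ ℕ, e.degree < n → MvPowerSeries.coeff e f = 0}
  add_mem' := by
    intro f g hf hg e he
    rw [map_add, hf e he, hg e he, add_zero]
  zero_mem' := by
    intro e _
    exact map_zero _
  smul_mem' := by
    intro c f hf e he
    classical
    rw [smul_eq_mul, MvPowerSeries.coeff_mul]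
    refine Finset.sum_eq_zero fun u hu => ?_
    rw [Finset.HasAntidiagonal.mem_antidiagonal] at hu
    have h1 : u.1.degree + u.2.degree = e.degree := by
      rw [← hu, map_add]
    rw [hf u.2 (by omega), mul_zero]

private theorem mem_J {n : ℕ} {f : MvPowerSeries σ R} :
    f ∈ J σ R n ↔ ∀ e : σ →₀ ℕ, e.degree < n → MvPowerSeries.coeff e f = 0 := Iff.rfl

private theorem J_mono {a b : ℕ} (h : a ≤ b) {f : MvPowerSeries σ R} (hf : f ∈ J σ R b) :
    f ∈ J σ R a := fun e he => hf e (lt_of_lt_of_le he h)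

private theorem J_zero (f : MvPowerSeries σ R) : f ∈ J σ R 0 := fun e he => absurd he (by omega)

private theorem J_mul {a b : ℕ} {f g : MvPowerSeries σ R} (hf : f ∈ J σ R a) (hg : g ∈ J σ R b) :
    f * g ∈ J σ R (a + b) := by
  classical
  intro e he
  rw [MvPowerSeries.coeff_mul]
  refine Finset.sum_eq_zero fun u hu => ?_
  rw [Finset.HasAntidiagonal.mem_antidiagonal] at hu
  have h1 : u.1.degree + u.2.degree = e.degree := by
    rw [← hu, map_add]
  by_cases h2 : u.1.degree < a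
  · rw [hf u.1 h2, zero_mul]
  · rw [hg u.2 (by omega), mul_zero]

private theorem J_one {f : MvPowerSeries σ R} (hf : MvPowerSeries.constantCoeff f = 0) :
    f ∈ J σ R 1 := by
  intro e he
  have h1 : e = 0 := by
    rw [← Finsupp.degree_eq_zero_iff]
    omega
  rw [h1, MvPowerSeries.coeff_zero_eq_constantCoeff_apply, hf]

private theorem J_pow {f : MvPowerSeries σ R} (hf : f ∈ J σ R 1) (i : ℕ) : f ^ i ∈ J σ R i := by
  induction i with
  | zero => exact J_zero _
  | succ i ih =>
    rw [pow_succ]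
    exact J_mul ih hf

private theorem J_pow_sub {a a' : MvPowerSeries σ R} (ha : a ∈ J σ R 1) (ha' : a' ∈ J σ R 1)
    {m : ℕ} (hm : 1 ≤ m) (h : a - a' ∈ J σ R m) (i : ℕ) :
    a ^ i - a' ^ i ∈ J σ R (i + m - 1) := by
  induction i with
  | zero =>
    rw [pow_zero, pow_zero, sub_self]
    exact Ideal.zero_mem _
  | succ i ih =>
    have h1 : a ^ (i + 1) - a' ^ (i + 1) = a ^ i * (a - a') + (a ^ i - a' ^ i) * a' := by ring
    rw [h1]
    refine Ideal.add_mem _ ?_ ?_
    · exact J_mono (by omega) (J_mul (J_pow ha i) h)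
    · exact J_mono (by omega) (J_mul ih ha')

private theorem J_prod_sub {a b a' b' : MvPowerSeries σ R} (ha : a ∈ J σ R 1) (hb : b ∈ J σ R 1)
    (ha' : a' ∈ J σ R 1) (hb' : b' ∈ J σ R 1) {m : ℕ} (hm : 1 ≤ m) (h : a - a' ∈ J σ R m)
    (h' : b - b' ∈ J σ R m) (i j : ℕ) :
    a ^ i * b ^ j - a' ^ i * b' ^ j ∈ J σ R (i + j + m - 1) := by
  have h1 : a ^ i * b ^ j - a' ^ i * b' ^ j = a ^ i * (b ^ j - b' ^ j) + (a ^ i - a' ^ i) * b' ^ j := by
    ring
  rw [h1]
  refine Ideal.add_mem _ ?_ ?_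
  · exact J_mono (by omega) (J_mul (J_pow ha i) (J_pow_sub hb hb' hm h' j))
  · exact J_mono (by omega) (J_mul (J_pow_sub ha ha' hm h i) (J_pow hb' j))

private theorem coeff_pair {a b : MvPowerSeries σ R} (ha : PowerSeries.HasSubst a)
    (hb : PowerSeries.HasSubst b) (f : MvPowerSeries (Fin 2) R) (e : σ →₀ ℕ) :
    MvPowerSeries.coeff e (MvPowerSeries.subst ![a, b] f) =
      ∑ᶠ d : Fin 2 →₀ ℕ, MvPowerSeries.coeff d f * MvPowerSeries.coeff e (a ^ d 0 * b ^ d 1) := by
  rw [MvPowerSeries.coeff_subst (hasSubst_pair ha hb)]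
  refine finsum_congr fun d => ?_
  rw [smul_eq_mul, Finsupp.prod_fintype _ _ (fun i => pow_zero _), Fin.prod_univ_two]
  rfl

private theorem hs_J {a : MvPowerSeries σ R} (ha : a ∈ J σ R 1) : PowerSeries.HasSubst a := by
  refine PowerSeries.HasSubst.of_constantCoeff_zero ?_
  rw [← MvPowerSeries.coeff_zero_eq_constantCoeff_apply]
  exact ha 0 (by simp)

private theorem deg2 (d : Fin 2 →₀ ℕ) : d.degree = d 0 + d 1 := by
  rw [Finsupp.degree_eq_sum, Fin.sum_univ_two]

private theorem subst_mem {n : ℕ} {f : MvPowerSeries (Fin 2) R} (hf : f ∈ J (Fin 2) R n)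
    {a b : MvPowerSeries σ R} (ha : a ∈ J σ R 1) (hb : b ∈ J σ R 1) :
    MvPowerSeries.subst ![a, b] f ∈ J σ R n := by
  intro e he
  rw [coeff_pair (hs_J ha) (hs_J hb)]
  refine finsum_eq_zero_of_forall_eq_zero fun d => ?_
  by_cases hd : d.degree < n
  · rw [hf d hd, zero_mul]
  · rw [J_mul (J_pow ha (d 0)) (J_pow hb (d 1)) e (by
      rw [← deg2]
      omega), mul_zero]

private theorem subst_sub_mem {n m : ℕ} (hm : 1 ≤ m) {f : MvPowerSeries (Fin 2) R}
    (hf : f ∈ J (Fin 2) R n) {a b a' b' : MvPowerSeries σ R} (ha : a ∈ J σ R 1) (hb : b ∈ J σ R 1)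
    (ha' : a' ∈ J σ R 1) (hb' : b' ∈ J σ R 1) (h : a - a' ∈ J σ R m) (h' : b - b' ∈ J σ R m) :
    MvPowerSeries.subst ![a, b] f - MvPowerSeries.subst ![a', b'] f ∈ J σ R (n + m - 1) := by
  intro e he
  rw [map_sub, coeff_pair (hs_J ha) (hs_J hb), coeff_pair (hs_J ha') (hs_J hb'), sub_eq_zero]
  refine finsum_congr fun d => ?_
  by_cases hd : d.degree < n
  · rw [hf d hd, zero_mul, zero_mul]
  · congr 1
    rw [← sub_eq_zero, ← map_sub]
    exact J_prod_sub ha hb ha' hb' hm h h' (d 0) (d 1) e (by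
      rw [← deg2]
      omega)

end fil

/-! ### one variable -/

private theorem lin0 (G : MvPowerSeries (Fin 2) R) (i : ℕ) :
    PowerSeries.coeff i (MvPowerSeries.subst ![(X : R⟦X⟧), 0] G : R⟦X⟧) = c2 G i 0 := by
  rw [PowerSeries.coeff, coeff_pair PowerSeries.HasSubst.X' PowerSeries.HasSubst.zero',
    finsum_eq_single _ (Finsupp.single 0 i + Finsupp.single 1 0)]
  · have h1 : MvPowerSeries.coeff (Finsupp.single () i) ((X : R⟦X⟧) ^ i) = 1 := by
      have h2 := PowerSeries.coeff_X_pow (R := R) i i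
      rw [if_pos rfl] at h2
      exact h2
    simp [c2, h1]
  · intro d hd
    by_cases h1 : d 1 = 0
    · have h2 : d 0 ≠ i := by
        intro h3
        apply hd
        ext s
        fin_cases s
        · simpa using h3
        · simpa using h1
      have h3 : MvPowerSeries.coeff (Finsupp.single () i) ((X : R⟦X⟧) ^ d 0) = 0 := by
        have h2' := PowerSeries.coeff_X_pow (R := R) i (d 0)
        rw [if_neg (fun h4 => h2 h4.symm)] at h2'
        exact h2'
      rw [h1, pow_zero, mul_one, h3, mul_zero]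
    · rw [zero_pow h1, mul_zero, map_zero, mul_zero]

private theorem lin1 (G : MvPowerSeries (Fin 2) R) (i : ℕ) :
    PowerSeries.coeff i (MvPowerSeries.subst ![0, (X : R⟦X⟧)] G : R⟦X⟧) = c2 G 0 i := by
  rw [PowerSeries.coeff, coeff_pair PowerSeries.HasSubst.zero' PowerSeries.HasSubst.X',
    finsum_eq_single _ (Finsupp.single 0 0 + Finsupp.single 1 i)]
  · have h1 : MvPowerSeries.coeff (Finsupp.single () i) ((X : R⟦X⟧) ^ i) = 1 := by
      have h2 := PowerSeries.coeff_X_pow (R := R) i i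
      rw [if_pos rfl] at h2
      exact h2
    simp [c2, h1]
  · intro d hd
    by_cases h1 : d 0 = 0
    · have h2 : d 1 ≠ i := by
        intro h3
        apply hd
        ext s
        fin_cases s
        · simpa using h1
        · simpa using h3
      have h3 : MvPowerSeries.coeff (Finsupp.single () i) ((X : R⟦X⟧) ^ d 1) = 0 := by
        have h2' := PowerSeries.coeff_X_pow (R := R) i (d 1)
        rw [if_neg (fun h4 => h2 h4.symm)] at h2'
        exact h2'
      rw [h1, pow_zero, one_mul, h3, mul_zero]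
    · rw [zero_pow h1, zero_mul, map_zero, mul_zero]

theorem c2_left (G : FormalGroup R) {i : ℕ} (hi : 2 ≤ i) : c2 G.toPowerSeries i 0 = 0 := by
  rw [← lin0, G.add_zero PowerSeries.HasSubst.X', PowerSeries.coeff_X, if_neg (by omega)]

theorem c2_right (G : FormalGroup R) {i : ℕ} (hi : 2 ≤ i) : c2 G.toPowerSeries 0 i = 0 := by
  rw [← lin1, G.zero_add PowerSeries.HasSubst.X', PowerSeries.coeff_X, if_neg (by omega)]

theorem cmp_symm {G : FormalGroup R} (hG : G.IsComm) (i j : ℕ) :
    c2 G.toPowerSeries i j = c2 G.toPowerSeries j i := by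
  classical
  have h1 : c2 G.toPowerSeries i j =
      c2 (MvPowerSeries.subst ![MvPowerSeries.X 1, MvPowerSeries.X 0] G.toPowerSeries) i j :=
    congrArg (fun f => c2 f i j) hG.comm
  rw [h1, c2, coeff_pair (PowerSeries.HasSubst.X 1) (PowerSeries.HasSubst.X 0),
    finsum_eq_single _ (Finsupp.single 0 j + Finsupp.single 1 i)]
  · have h2 : MvPowerSeries.coeff (Finsupp.single 0 i + Finsupp.single 1 j)
        ((MvPowerSeries.X 1 : MvPowerSeries (Fin 2) R) ^ j * MvPowerSeries.X 0 ^ i) = 1 := by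
      rw [MvPowerSeries.X_pow_eq, MvPowerSeries.X_pow_eq, MvPowerSeries.monomial_mul_monomial,
        MvPowerSeries.coeff_monomial, if_pos (add_comm _ _), mul_one]
    simp only [Finsupp.add_apply, Finsupp.single_apply, if_true, Fin.isValue,
      show (1 : Fin 2) ≠ 0 from by decide, show (0 : Fin 2) ≠ 1 from by decide, if_false, add_zero,
      zero_add]
    rw [h2, mul_one]
    rfl
  · intro d hd
    rw [MvPowerSeries.X_pow_eq, MvPowerSeries.X_pow_eq, MvPowerSeries.monomial_mul_monomial,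
      MvPowerSeries.coeff_monomial, if_neg, mul_zero]
    intro h2
    apply hd
    have h3 := DFunLike.congr_fun h2 0
    have h4 := DFunLike.congr_fun h2 1
    simp at h3 h4
    ext s
    fin_cases s
    · simpa using h4.symm
    · simpa using h3.symm

/-! ### three variables -/

private theorem E_inj {i j l i' j' l' : ℕ}
    (h : (Finsupp.single 0 i + Finsupp.single 1 j + Finsupp.single 2 l : Fin 3 →₀ ℕ) =
      Finsupp.single 0 i' + Finsupp.single 1 j' + Finsupp.single 2 l') :
    i = i' ∧ j = j' ∧ l = l' := by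
  have h0 := DFunLike.congr_fun h 0
  have h1 := DFunLike.congr_fun h 1
  have h2 := DFunLike.congr_fun h 2
  simp at h0 h1 h2
  exact ⟨h0, h1, h2⟩

private theorem mon3 (a b c : ℕ) (r : R) :
    (MvPowerSeries.X 0 : MvPowerSeries (Fin 3) R) ^ a * MvPowerSeries.X 1 ^ b *
      MvPowerSeries.X 2 ^ c * MvPowerSeries.C r =
      MvPowerSeries.monomial (Finsupp.single 0 a + Finsupp.single 1 b + Finsupp.single 2 c) r := by
  classical
  rw [MvPowerSeries.X_pow_eq, MvPowerSeries.X_pow_eq, MvPowerSeries.X_pow_eq,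
    MvPowerSeries.monomial_mul_monomial, MvPowerSeries.monomial_mul_monomial,
    ← MvPowerSeries.monomial_zero_eq_C_apply, MvPowerSeries.monomial_mul_monomial]
  simp

private theorem coeff_mon3 (i j l a b c : ℕ) (r : R) :
    MvPowerSeries.coeff (Finsupp.single 0 i + Finsupp.single 1 j + Finsupp.single 2 l)
      ((MvPowerSeries.X 0 : MvPowerSeries (Fin 3) R) ^ a * MvPowerSeries.X 1 ^ b *
        MvPowerSeries.X 2 ^ c * MvPowerSeries.C r) =
      if i = a ∧ j = b ∧ l = c then r else 0 := by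
  classical
  rw [mon3, MvPowerSeries.coeff_monomial]
  by_cases h : i = a ∧ j = b ∧ l = c
  · obtain ⟨rfl, rfl, rfl⟩ := h
    rw [if_pos rfl, if_pos ⟨rfl, rfl, rfl⟩]
  · rw [if_neg (fun h1 => h (E_inj h1)), if_neg h]

private theorem T1 (i j l a b : ℕ) :
    MvPowerSeries.coeff (Finsupp.single 0 i + Finsupp.single 1 j + Finsupp.single 2 l)
      ((MvPowerSeries.X 0 + MvPowerSeries.X 1 : MvPowerSeries (Fin 3) R) ^ a *
        MvPowerSeries.X 2 ^ b) =
      if a = i + j ∧ b = l then ((i + j).choose i : R) else 0 := by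
  have h0 : (MvPowerSeries.X 0 + MvPowerSeries.X 1 : MvPowerSeries (Fin 3) R) ^ a *
        MvPowerSeries.X 2 ^ b = ∑ m ∈ Finset.range (a + 1),
          (MvPowerSeries.X 0 : MvPowerSeries (Fin 3) R) ^ m * MvPowerSeries.X 1 ^ (a - m) *
            MvPowerSeries.X 2 ^ b * MvPowerSeries.C (a.choose m : R) := by
    rw [add_pow, Finset.sum_mul]
    refine Finset.sum_congr rfl fun m _ => ?_
    rw [map_natCast]
    ring
  rw [h0, map_sum]
  by_cases h : a = i + j ∧ b = l
  · obtain ⟨rfl, rfl⟩ := h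
    rw [if_pos ⟨rfl, rfl⟩, Finset.sum_eq_single i]
    · rw [coeff_mon3, if_pos ⟨rfl, by omega, rfl⟩]
    · intro m _ hm
      rw [coeff_mon3, if_neg]
      rintro ⟨h1, -, -⟩
      exact hm h1.symm
    · intro h1
      exact absurd (Finset.mem_range.mpr (by omega)) h1
  · rw [if_neg h]
    refine Finset.sum_eq_zero fun m hm => ?_
    rw [Finset.mem_range] at hm
    rw [coeff_mon3, if_neg]
    rintro ⟨h1, h2, h3⟩
    apply h
    exact ⟨by omega, h3.symm⟩

private theorem T2 (i j l a b : ℕ) :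
    MvPowerSeries.coeff (Finsupp.single 0 i + Finsupp.single 1 j + Finsupp.single 2 l)
      ((MvPowerSeries.X 0 : MvPowerSeries (Fin 3) R) ^ a *
        (MvPowerSeries.X 1 + MvPowerSeries.X 2) ^ b) =
      if a = i ∧ b = j + l then ((j + l).choose j : R) else 0 := by
  have h0 : (MvPowerSeries.X 0 : MvPowerSeries (Fin 3) R) ^ a *
        (MvPowerSeries.X 1 + MvPowerSeries.X 2) ^ b = ∑ m ∈ Finset.range (b + 1),
          (MvPowerSeries.X 0 : MvPowerSeries (Fin 3) R) ^ a * MvPowerSeries.X 1 ^ m *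
            MvPowerSeries.X 2 ^ (b - m) * MvPowerSeries.C (b.choose m : R) := by
    rw [add_pow, Finset.mul_sum]
    refine Finset.sum_congr rfl fun m _ => ?_
    rw [map_natCast]
    ring
  rw [h0, map_sum]
  by_cases h : a = i ∧ b = j + l
  · obtain ⟨rfl, rfl⟩ := h
    rw [if_pos ⟨rfl, rfl⟩, Finset.sum_eq_single j]
    · rw [coeff_mon3, if_pos ⟨rfl, rfl, by omega⟩]
    · intro m _ hm
      rw [coeff_mon3, if_neg]
      rintro ⟨-, h1, -⟩
      exact hm h1.symm
    · intro h1
      exact absurd (Finset.mem_range.mpr (by omega)) h1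
  · rw [if_neg h]
    refine Finset.sum_eq_zero fun m hm => ?_
    rw [Finset.mem_range] at hm
    rw [coeff_mon3, if_neg]
    rintro ⟨h1, h2, h3⟩
    apply h
    exact ⟨h1.symm, by omega⟩

private theorem C_one' {n : ℕ} : (MvPowerSeries.C (1 : R) : MvPowerSeries (Fin n) R) = 1 :=
  map_one _

private theorem X_J {n : ℕ} (s : Fin n) : (MvPowerSeries.X s : MvPowerSeries (Fin n) R) ∈
    J (Fin n) R 1 := J_one (MvPowerSeries.constantCoeff_X s)

private theorem c2_sub (f g : MvPowerSeries (Fin 2) R) (i j : ℕ) :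
    c2 (f - g) i j = c2 f i j - c2 g i j := map_sub _ _ _

private theorem coeff_eq_c2 (f : MvPowerSeries (Fin 2) R) (e : Fin 2 →₀ ℕ) :
    MvPowerSeries.coeff e f = c2 f (e 0) (e 1) := by
  have h : Finsupp.single 0 (e 0) + Finsupp.single 1 (e 1) = e := by
    ext s
    fin_cases s <;> simp
  rw [c2, h]

private theorem S1 (D : MvPowerSeries (Fin 2) R) (i j l : ℕ) :
    MvPowerSeries.coeff (Finsupp.single 0 i + Finsupp.single 1 j + Finsupp.single 2 l)
      (MvPowerSeries.subst ![(MvPowerSeries.X 0 + MvPowerSeries.X 1 : MvPowerSeries (Fin 3) R),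
        MvPowerSeries.X 2] D) = (i + j).choose i * c2 D (i + j) l := by
  rw [coeff_pair (hs_J (Ideal.add_mem _ (X_J 0) (X_J 1))) (hs_J (X_J 2)),
    finsum_eq_single _ (Finsupp.single 0 (i + j) + Finsupp.single 1 l)]
  · rw [T1, if_pos (by simp), mul_comm]
    rfl
  · intro d hd
    rw [T1, if_neg, mul_zero]
    rintro ⟨h1, h2⟩
    apply hd
    ext s
    fin_cases s
    · simpa using h1
    · simpa using h2

private theorem S2 (D : MvPowerSeries (Fin 2) R) (i j l : ℕ) :
    MvPowerSeries.coeff (Finsupp.single 0 i + Finsupp.single 1 j + Finsupp.single 2 l)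
      (MvPowerSeries.subst ![(MvPowerSeries.X 0 : MvPowerSeries (Fin 3) R),
        MvPowerSeries.X 1 + MvPowerSeries.X 2] D) = (j + l).choose j * c2 D i (j + l) := by
  rw [coeff_pair (hs_J (X_J 0)) (hs_J (Ideal.add_mem _ (X_J 1) (X_J 2))),
    finsum_eq_single _ (Finsupp.single 0 i + Finsupp.single 1 (j + l))]
  · rw [T2, if_pos (by simp), mul_comm]
    rfl
  · intro d hd
    rw [T2, if_neg, mul_zero]
    rintro ⟨h1, h2⟩
    apply hd
    ext s
    fin_cases s
    · simpa using h1
    · simpa using h2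

private theorem S3 (D : MvPowerSeries (Fin 2) R) {i j l : ℕ} (hl : 0 < l) :
    MvPowerSeries.coeff (Finsupp.single 0 i + Finsupp.single 1 j + Finsupp.single 2 l)
      (MvPowerSeries.subst ![(MvPowerSeries.X 0 : MvPowerSeries (Fin 3) R),
        MvPowerSeries.X 1] D) = 0 := by
  rw [coeff_pair (hs_J (X_J 0)) (hs_J (X_J 1))]
  refine finsum_eq_zero_of_forall_eq_zero fun d => ?_
  have h1 := coeff_mon3 i j l (d 0) (d 1) 0 (1 : R)
  rw [C_one', mul_one, pow_zero, mul_one] at h1
  rw [h1, if_neg, mul_zero]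
  rintro ⟨-, -, h2⟩
  omega

private theorem S4 (D : MvPowerSeries (Fin 2) R) {i j l : ℕ} (hi : 0 < i) :
    MvPowerSeries.coeff (Finsupp.single 0 i + Finsupp.single 1 j + Finsupp.single 2 l)
      (MvPowerSeries.subst ![(MvPowerSeries.X 1 : MvPowerSeries (Fin 3) R),
        MvPowerSeries.X 2] D) = 0 := by
  rw [coeff_pair (hs_J (X_J 1)) (hs_J (X_J 2))]
  refine finsum_eq_zero_of_forall_eq_zero fun d => ?_
  have h1 := coeff_mon3 i j l 0 (d 0) (d 1) (1 : R)
  rw [C_one', mul_one, pow_zero, one_mul] at h1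
  rw [h1, if_neg, mul_zero]
  rintro ⟨h2, -, -⟩
  omega

/-- `H = x + y` modulo degree two -/
private theorem lin_mem (H : FormalGroup R) :
    H.toPowerSeries - (MvPowerSeries.X 0 + MvPowerSeries.X 1) ∈ J (Fin 2) R 2 := by
  classical
  intro e he
  rw [deg2] at he
  have h00 : MvPowerSeries.coeff (0 : Fin 2 →₀ ℕ) H.toPowerSeries = 0 := by
    rw [MvPowerSeries.coeff_zero_eq_constantCoeff_apply]
    exact H.zero_constantCoeff
  have hcase : e = 0 ∨ e = Finsupp.single 0 1 ∨ e = Finsupp.single 1 1 := by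
    have h1 : (e 0 = 0 ∧ e 1 = 0) ∨ (e 0 = 1 ∧ e 1 = 0) ∨ (e 0 = 0 ∧ e 1 = 1) := by omega
    rcases h1 with ⟨h2, h3⟩ | ⟨h2, h3⟩ | ⟨h2, h3⟩
    · left
      ext s
      fin_cases s
      · simpa using h2
      · simpa using h3
    · right
      left
      ext s
      fin_cases s
      · simpa using h2
      · simpa using h3
    · right
      right
      ext s
      fin_cases s
      · simpa using h2
      · simpa using h3
  rcases hcase with rfl | rfl | rfl
  · rw [map_sub, map_add, h00]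
    simp
  · rw [map_sub, map_add, H.lin_coeff_X, MvPowerSeries.coeff_X, MvPowerSeries.coeff_X,
      if_pos rfl, if_neg]
    · ring
    · intro h1
      have h2 := DFunLike.congr_fun h1 0
      simp at h2
  · rw [map_sub, map_add, H.lin_coeff_Y, MvPowerSeries.coeff_X, MvPowerSeries.coeff_X,
      if_pos rfl, if_neg]
    · ring
    · intro h1
      have h2 := DFunLike.congr_fun h1 0
      simp at h2

private theorem F_J (G : FormalGroup R) {n : ℕ} {a b : MvPowerSeries (Fin n) R}
    (ha : a ∈ J (Fin n) R 1) (hb : b ∈ J (Fin n) R 1) :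
    MvPowerSeries.subst ![a, b] G.toPowerSeries ∈ J (Fin n) R 1 :=
  subst_mem (J_one G.zero_constantCoeff) ha hb

private theorem subst_XX {n : ℕ} {a b : MvPowerSeries (Fin n) R}
    (ha : a ∈ J (Fin n) R 1) (hb : b ∈ J (Fin n) R 1) :
    MvPowerSeries.subst ![a, b] (MvPowerSeries.X 0 + MvPowerSeries.X 1 : MvPowerSeries (Fin 2) R) =
      a + b := by
  have h := hasSubst_pair (hs_J ha) (hs_J hb)
  rw [MvPowerSeries.subst_add h, MvPowerSeries.subst_X h, MvPowerSeries.subst_X h]
  rfl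

private theorem subst_sub' {n : ℕ} {a b : MvPowerSeries (Fin n) R}
    (ha : a ∈ J (Fin n) R 1) (hb : b ∈ J (Fin n) R 1) (f g : MvPowerSeries (Fin 2) R) :
    MvPowerSeries.subst ![a, b] (f - g) = MvPowerSeries.subst ![a, b] f -
      MvPowerSeries.subst ![a, b] g := by
  have h := hasSubst_pair (hs_J ha) (hs_J hb)
  rw [← MvPowerSeries.coe_substAlgHom h, map_sub]

private theorem F_lin (G : FormalGroup R) {n : ℕ} {a b : MvPowerSeries (Fin n) R}
    (ha : a ∈ J (Fin n) R 1) (hb : b ∈ J (Fin n) R 1) :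
    MvPowerSeries.subst ![a, b] G.toPowerSeries - (a + b) ∈ J (Fin n) R 2 := by
  have h1 := subst_mem (lin_mem G) ha hb
  rw [subst_sub' ha hb, subst_XX ha hb] at h1
  exact h1

/-- the comparison of `G (a, b)` and `H (a', b')` -/
private theorem cmp_two {G H : FormalGroup R} {d : ℕ} (hd : 2 ≤ d)
    (h : G.toPowerSeries - H.toPowerSeries ∈ J (Fin 2) R d) {n : ℕ}
    {a b a' b' u v : MvPowerSeries (Fin n) R}
    (ha : a ∈ J (Fin n) R 1) (hb : b ∈ J (Fin n) R 1)
    (ha' : a' ∈ J (Fin n) R 1) (hb' : b' ∈ J (Fin n) R 1)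
    (hu : u ∈ J (Fin n) R 1) (hv : v ∈ J (Fin n) R 1)
    (hau : a - u ∈ J (Fin n) R 2) (hbv : b - v ∈ J (Fin n) R 2)
    (haa : a - a' ∈ J (Fin n) R d) (hbb : b - b' ∈ J (Fin n) R d) :
    MvPowerSeries.subst ![a, b] G.toPowerSeries - MvPowerSeries.subst ![a', b'] H.toPowerSeries -
      (MvPowerSeries.subst ![u, v] (G.toPowerSeries - H.toPowerSeries) + (a - a') + (b - b')) ∈
        J (Fin n) R (d + 1) := by
  have h1 := subst_sub_mem (by omega : 1 ≤ 2) h ha hb hu hv hau hbv
  have h2 := subst_sub_mem (by omega : 1 ≤ d) (lin_mem H) ha hb ha' hb' haa hbb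
  rw [subst_sub' ha hb (H.toPowerSeries), subst_sub' ha' hb' (H.toPowerSeries), subst_XX ha hb,
    subst_XX ha' hb'] at h2
  rw [subst_sub' ha hb] at h1
  have h3 := Ideal.add_mem _ (J_mono (by omega : d + 1 ≤ d + 2 - 1) h1)
    (J_mono (by omega : d + 1 ≤ 2 + d - 1) h2)
  have h4 : ∀ p q r s t : MvPowerSeries (Fin n) R,
      p - r - (t + (a - a') + (b - b')) = p - q - t + (q - (a + b) - (r - (a' + b'))) := by
    intro p q r s t
    ring
  rw [h4 _ (MvPowerSeries.subst ![a, b] H.toPowerSeries) _ 0 _]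
  exact h3

theorem cmp_assoc {G H : FormalGroup R} {d : ℕ} (hd : 2 ≤ d)
    (h : EqD d G.toPowerSeries H.toPowerSeries) {i j : ℕ} (hi : 0 < i) (hj : 0 < j)
    (hij : i + j < d) :
    (i + j).choose i • (c2 G.toPowerSeries (i + j) (d - (i + j)) -
        c2 H.toPowerSeries (i + j) (d - (i + j))) =
      (d - i).choose j • (c2 G.toPowerSeries i (d - i) - c2 H.toPowerSeries i (d - i)) := by
  obtain ⟨D, hD⟩ : ∃ D : MvPowerSeries (Fin 2) R, D = G.toPowerSeries - H.toPowerSeries := ⟨_, rfl⟩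
  have hDJ : D ∈ J (Fin 2) R d := by
    intro e he
    rw [deg2] at he
    rw [hD, coeff_eq_c2, c2_sub, h _ _ he, sub_self]
  have x0 := X_J (R := R) (0 : Fin 3)
  have x1 := X_J (R := R) (1 : Fin 3)
  have x2 := X_J (R := R) (2 : Fin 3)
  have x01 := Ideal.add_mem _ x0 x1
  have x12 := Ideal.add_mem _ x1 x2
  have z : ∀ a : MvPowerSeries (Fin 3) R, ∀ m, a - a ∈ J (Fin 3) R m := by
    intro a m
    rw [sub_self]
    exact Ideal.zero_mem _
  have hsub : ∀ a b : MvPowerSeries (Fin 3) R, a ∈ J (Fin 3) R 1 → b ∈ J (Fin 3) R 1 →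
      MvPowerSeries.subst ![a, b] G.toPowerSeries - MvPowerSeries.subst ![a, b] H.toPowerSeries =
        MvPowerSeries.subst ![a, b] D := by
    intro a b ha hb
    rw [hD, subst_sub' ha hb]
  have hD' : G.toPowerSeries - H.toPowerSeries ∈ J (Fin 2) R d := by
    rw [← hD]
    exact hDJ
  have e1 := cmp_two hd hD' (F_J G x0 x1) x2 (F_J H x0 x1) x2 x01 x2 (F_lin G x0 x1) (z _ _)
    (by
      rw [hsub _ _ x0 x1]
      exact subst_mem hDJ x0 x1) (z _ _)
  have e2 := cmp_two hd hD' x0 (F_J G x1 x2) x0 (F_J H x1 x2) x0 x12 (z _ _) (F_lin G x1 x2) (z _ _)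
    (by
      rw [hsub _ _ x1 x2]
      exact subst_mem hDJ x1 x2)
  rw [hsub _ _ x0 x1, ← hD] at e1
  rw [hsub _ _ x1 x2, ← hD] at e2
  have hG := G.assoc
  have hH := H.assoc
  rw [hG, hH] at e1
  have e3 := Ideal.sub_mem _ e2 e1
  have e4 : ∀ p q r s t t' : MvPowerSeries (Fin 3) R, ∀ a b : MvPowerSeries (Fin 3) R,
      (p - q - (r + (a - a) + s)) - (p - q - (t + t' + (b - b))) = t + t' - r - s := by
    intro p q r s t t' a b
    ring
  rw [e4] at e3
  have hdeg : (Finsupp.single 0 i + Finsupp.single 1 j + Finsupp.single 2 (d - (i + j)) :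
      Fin 3 →₀ ℕ).degree < d + 1 := by
    rw [map_add, map_add, Finsupp.degree_single, Finsupp.degree_single, Finsupp.degree_single]
    omega
  have e5 := e3 _ hdeg
  rw [map_sub, map_sub, map_add, S1, S2, S3 D (by omega), S4 D hi] at e5
  have h6 : j + (d - (i + j)) = d - i := by omega
  rw [h6, add_zero, sub_zero, sub_eq_zero, hD, c2_sub, c2_sub] at e5
  rw [nsmul_eq_mul, nsmul_eq_mul]
  exact e5

theorem eq_of_EqD {G H : FormalGroup R}
    (h : ∀ d, EqD d G.toPowerSeries H.toPowerSeries) : G = H := by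
  refine FormalGroup.ext ?_
  ext e
  rw [coeff_eq_c2, coeff_eq_c2]
  exact h (e 0 + e 1 + 1) _ _ (by omega)

end Pool.Agent.H49.LX
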