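import Pool.Agent.H49.LX.One

/-!
# CH-ALL, LTEX: a deformation is determined by the normal form of `[p]`

PROOF.  `G ≡ H mod I ^ r` for all `r ≥ 1` by induction: `one_step` over `B / I ^ (r + 1)` with the image of `I`.
`nfm`: `gnf_exists` gives `u`, `g'`; `G' = u G u⁻¹` (`exists_conj`); `[p]_G' = g'` (`IsHom.mulSer`, cancel `u`).
-/

open PowerSeries

namespace Pool.Agent.H49.LX

open Pool.Agent.H13.CA Pool.Agent.H86.NF

variable {B : Type*} [CommRing B] (p : ℕ) [Fact p.Prime] [CharP B p]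

private theorem c2_map {S : Type*} [CommRing S] (φ : B →+* S) (G : FormalGroup B) (i j : ℕ) :
    c2 (G.map φ).toPowerSeries i j = φ (c2 G.toPowerSeries i j) := by
  unfold c2
  rw [FormalGroup.map_toPowerSeries, MvPowerSeries.coeff_map]

theorem unq {I : Ideal B} [IsHausdorff I B] (hI : I ≠ ⊤) {n : ℕ} (hn : 1 ≤ n)
    {G H : FormalGroup B} (hG : G.IsComm) (hH : H.IsComm)
    (hGH : ∀ i j, c2 G.toPowerSeries i j - c2 H.toPowerSeries i j ∈ I)
    (hp : ∀ i, ¬ p ∣ i → coeff i (mulSer H p) ∈ I)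
    (hd : ∀ i < p ^ n, coeff i (mulSer H p) ∈ I) (hu : IsUnit (coeff (p ^ n) (mulSer H p)))
    (h1 : ∀ i, 1 ≤ i → coeff (p ^ n * i) (mulSer G p) = coeff (p ^ n * i) (mulSer H p))
    (h2 : ∀ j, 1 ≤ j → j < n → coeff (p ^ j) (mulSer G p) = coeff (p ^ j) (mulSer H p)) :
    G = H := by
  have key : ∀ r, ∀ i j, c2 G.toPowerSeries i j - c2 H.toPowerSeries i j ∈ I ^ (r + 1) := by
    intro r
    induction r with
    | zero =>
      rw [zero_add, pow_one]
      exact hGH
    | succ r ih =>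
      obtain ⟨J, hJ⟩ : ∃ J : Ideal B, J = I ^ (r + 1 + 1) := ⟨_, rfl⟩
      have hJ1 : J ≠ ⊤ := by
        rw [hJ]
        intro h
        exact hI (top_le_iff.1 (h ▸ Ideal.pow_le_self (by omega)))
      have : Nontrivial (B ⧸ J) := Ideal.Quotient.nontrivial_iff.2 hJ1
      have : CharP (B ⧸ J) p := by
        have h3 : ((p : ℕ) : B ⧸ J) = 0 := by
          rw [← map_natCast (Ideal.Quotient.mk J), CharP.cast_eq_zero, map_zero]
        exact (CharP.charP_iff_prime_eq_zero (Fact.out : p.Prime)).2 h3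
      obtain ⟨φ, hφ⟩ : ∃ φ : B →+* B ⧸ J, φ = Ideal.Quotient.mk J := ⟨_, rfl⟩
      have hφ0 : ∀ x, φ x = 0 ↔ x ∈ J := fun x => by
        rw [hφ]
        exact Ideal.Quotient.eq_zero_iff_mem
      have hφm : ∀ (s : ℕ) (x : B), x ∈ I ^ s → φ x ∈ (I.map φ) ^ s := by
        intro s x hx
        rw [← Ideal.map_pow]
        exact Ideal.mem_map_of_mem φ hx
      have hφI : ∀ x ∈ I, φ x ∈ I.map φ := fun x hx => Ideal.mem_map_of_mem φ hx
      have h3 : G.map φ = H.map φ := by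
        refine one_step p (I := I.map φ) (r := r + 1) (by omega) ?_ hn (IsComm.map' hG φ)
          (IsComm.map' hH φ) ?_ ?_ ?_ ?_ ?_ ?_
        · rw [← Ideal.map_pow, ← hJ, hφ]
          exact Ideal.map_quotient_self J
        · intro i j
          rw [c2_map, c2_map, ← map_sub]
          exact hφm _ _ (ih i j)
        · intro i hi
          rw [mulSer_map, coeff_map]
          exact hφI _ (hp i hi)
        · intro i hi
          rw [mulSer_map, coeff_map]
          exact hφI _ (hd i hi)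
        · rw [mulSer_map, coeff_map]
          exact hu.map φ
        · intro i hi
          rw [mulSer_map, coeff_map, mulSer_map, coeff_map, h1 i hi]
        · intro j hj hjn
          rw [mulSer_map, coeff_map, mulSer_map, coeff_map, h2 j hj hjn]
      intro i j
      rw [← hJ, ← hφ0, map_sub, ← c2_map, ← c2_map, h3, sub_self]
  apply eq_of_EqD
  intro d i j _
  rw [← sub_eq_zero]
  refine IsHausdorff.haus ‹IsHausdorff I B› _ fun N => ?_
  rw [SModEq.zero, smul_eq_mul, Ideal.mul_top]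
  exact Ideal.pow_le_pow_right (Nat.le_succ N) (key N i j)

theorem nfm {I : Ideal B} [IsAdicComplete I B] {d : ℕ} (hd1 : 1 ≤ d) {g₀ : B⟦X⟧}
    {G : FormalGroup B} (hG : G.IsComm) (hg : Sm I (mulSer G p) g₀)
    (hp : ∀ i, ¬ p ∣ i → coeff i g₀ ∈ I) (hd : ∀ i < d, coeff i g₀ ∈ I)
    (hu : IsUnit (coeff d g₀)) :
    ∃ (G' : FormalGroup B) (u : B⟦X⟧), IsHom G G' u ∧ Sm I u X ∧ IsUnit (coeff 1 u) ∧
      G'.IsComm ∧ Sm I (mulSer G' p) g₀ ∧ NrmR d g₀ (mulSer G' p) := by
  obtain ⟨u, g', a1, a2, a3, a4, a5, a6⟩ := gnf_exists I hd1 (cc_mulSer G p) hg hp hd hu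
  have hu1 : IsUnit (coeff 1 u) := isUnit_one_of_sm a2
  obtain ⟨G', b1, b2⟩ := exists_conj G a1 hu1
  have h1 : mulSer G' p = g' := by
    obtain ⟨v, hv0, huv, hvu⟩ := exists_inv a1 hu1
    have h2 : cm (mulSer G' p) u = cm g' u := by
      rw [← a6]
      exact (b1.mulSer p).symm
    have h3 : cm (cm (mulSer G' p) u) v = cm (cm g' u) v := by rw [h2]
    rw [comp_assoc _ a1 hv0, comp_assoc _ a1 hv0, huv, comp_X, comp_X] at h3
    exact h3
  refine ⟨G', u, b1, a2, hu1, b2 hG, ?_, ?_⟩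
  · rw [h1]
    exact a4
  · rw [h1]
    exact a5

end Pool.Agent.H49.LX
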