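import Pool.Agent.H13.CA.Com
import Pool.Agent.H49.LX.Unq
import Pool.Agent.H61.CA.Coo
import Pool.Agent.H84.CA.Big
import Pool.Agent.H86.FG.Fg

/-!
# CH-ALL, LTEX: versality

PROOF.  `B = k⟦u_1, .., u_m⟧`, `Γ = special F`.  `H86.FG.nf_exists` for `F` and `G`: `U : F → F'`, `V : G → G'` in normal form.
`HT` of `mulSer F p` with the coordinates `X` (`ht_of_isLT`), so of `mulSer F' p` (`HT.conj`);
`w j = coeff (p ^ (j + 1)) (mulSer F' p)` generate the maximal ideal (`HT.span_eq`, `Ij_last`);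
`ψ : X j ↦ w j` an automorphism (`H61.CA.coord`); `φ = (X j ↦ coeff (p ^ (j + 1)) (mulSer G' p)) ∘ ψ⁻¹`
(`H84.CA.algHom_exists_mv'`), local.  `F'.map φ` and `G'`: both reduce to `Γ`, both normal relative to `Γ`
(`nf_map`), same coefficients of index `p ^ j`: equal by `unq`.
Then `map φ U : F.map φ → F'.map φ = G'` composed with `V⁻¹`.
-/

open MvPowerSeries

namespace Pool.Agent.H49.LX

open Pool.Agent.H13.CA Pool.Agent.H86

private theorem cc_alg {k : Type*} [Field k] {m : ℕ}
    (φ : MvPowerSeries (Fin m) k →ₐ[k] MvPowerSeries (Fin m) k)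
    (h : ∀ i, constantCoeff (φ (X i)) = 0) (x : MvPowerSeries (Fin m) k) :
    constantCoeff (φ x) = constantCoeff x := by
  have h1 : ∀ y ∈ FG.mI (Fin m) k, constantCoeff (φ y) = 0 := by
    intro y hy
    rw [FG.mI_eq] at hy
    have h2 : Ideal.span (Set.range fun l : Fin m => (X l : MvPowerSeries (Fin m) k)) ≤
        RingHom.ker ((constantCoeff (σ := Fin m) (R := k)).comp
          (φ : MvPowerSeries (Fin m) k →+* MvPowerSeries (Fin m) k)) := by
      rw [Ideal.span_le]
      rintro _ ⟨i, rfl⟩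
      exact h i
    exact h2 hy
  have h3 : x - algebraMap k (MvPowerSeries (Fin m) k) (constantCoeff x) ∈ FG.mI (Fin m) k := by
    rw [RingHom.mem_ker, map_sub, FG.cc_algebraMap, Algebra.algebraMap_self, RingHom.id_apply,
      sub_self]
  have h4 := h1 _ h3
  rw [map_sub, φ.commutes, map_sub, FG.cc_algebraMap, Algebra.algebraMap_self, RingHom.id_apply,
    sub_eq_zero] at h4
  exact h4

theorem versal {k : Type*} [Field k] (p : ℕ) [Fact p.Prime] [CharP k p] {m : ℕ}
    {F : FormalGroup (MvPowerSeries (Fin m) k)} (hF : IsLT k p m F)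
    {G : FormalGroup (MvPowerSeries (Fin m) k)} (hG : G.IsComm) (hs : special G = special F) :
    ∃ (φ : MvPowerSeries (Fin m) k →ₐ[k] MvPowerSeries (Fin m) k)
      (u : PowerSeries (MvPowerSeries (Fin m) k)),
      (∀ x, constantCoeff (φ x) = constantCoeff x) ∧
      IsHom (F.map (φ : MvPowerSeries (Fin m) k →+* MvPowerSeries (Fin m) k)) G u ∧
      red u = PowerSeries.X := by
  have hpp : 0 < p := (Fact.out : p.Prime).pos
  have hcp := FG.charP_mv (σ := Fin m) (L := k) p
  have hac := FG.ac_mI (σ := Fin m) (L := k)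
  obtain ⟨Γ, hΓ⟩ : ∃ Γ : FormalGroup k, Γ = special F := ⟨_, rfl⟩
  have hΓc : Γ.IsComm := by
    rw [hΓ]
    exact IsComm.map' hF.comm _
  have hΓh : HasHeight p (m + 1) Γ := by
    rw [hΓ]
    exact FG.height_of_isLT hF
  have hΓm : Γ.map (algebraMap k k) = Γ := fmap_id Γ _ (fun _ => rfl)
  obtain ⟨F', U, f1, f2, f3, f4, f5⟩ := FG.nf_exists (p := p) hΓc hΓh hF.comm
    (by rw [hΓm, hΓ] : special F = Γ.map (algebraMap k k))
  obtain ⟨G', V, g1, g2, g3, g4, g5⟩ := FG.nf_exists (p := p) hΓc hΓh hG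
    (by rw [hΓm, hΓ, hs] : special G = Γ.map (algebraMap k k))
  have hunit : ∀ W : PowerSeries (MvPowerSeries (Fin m) k), red W = PowerSeries.X →
      IsUnit (PowerSeries.coeff 1 W) := by
    intro W hW
    apply FG.unit_of_red
    rw [hW, PowerSeries.coeff_one_X]
    exact isUnit_one
  have hG'h : HasHeight p (m + 1) (special G') := by
    rw [g4]
    exact FG.height_map hΓh
  have hT := (FG.ht_of_isLT hF).conj hpp f1.1 (hunit U f2) (cc_mulSer F p) (f1.mulSer p)
  obtain ⟨w, hw⟩ : ∃ w : Fin m → MvPowerSeries (Fin m) k, w = NF.cf p m (mulSer F' p) := ⟨_, rfl⟩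
  have hspan : Ideal.span (Set.range w) =
      Ideal.span (Set.range (X : Fin m → MvPowerSeries (Fin m) k)) := by
    have h1 := hT.span_eq le_rfl
    rw [NF.Ij_last, NF.Ij_last, ← hw] at h1
    exact h1
  obtain ⟨ψ, hψ, -, hψc⟩ := H61.CA.coord w hspan
  obtain ⟨c, hc⟩ := H84.CA.algHom_exists_mv' (k := k)
    (fun i : Fin m => PowerSeries.coeff (p ^ (i.val + 1)) (mulSer G' p)) (by
      intro i
      rw [FG.cc_coeff]
      exact hG'h.1 _ (Nat.pow_lt_pow_right (Fact.out : p.Prime).one_lt (by omega)))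
  have hc0 : ∀ x, constantCoeff (c x) = constantCoeff x := cc_alg c (fun i => by
    rw [hc, FG.cc_coeff]
    exact hG'h.1 _ (Nat.pow_lt_pow_right (Fact.out : p.Prime).one_lt (by omega)))
  obtain ⟨φ, hφ⟩ : ∃ φ : MvPowerSeries (Fin m) k →ₐ[k] MvPowerSeries (Fin m) k,
      φ = c.comp (ψ.symm : MvPowerSeries (Fin m) k →ₐ[k] MvPowerSeries (Fin m) k) := ⟨_, rfl⟩
  have hφa : ∀ x, φ x = c (ψ.symm x) := fun x => by rw [hφ]; rfl
  have hφc : ∀ x, constantCoeff (φ x) = constantCoeff x := by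
    intro x
    rw [hφa, hc0]
    conv_rhs => rw [← ψ.apply_symm_apply x, hψc]
  have hφw : ∀ i, φ (w i) = PowerSeries.coeff (p ^ (i.val + 1)) (mulSer G' p) := by
    intro i
    rw [hφa, ← hψ i, ψ.symm_apply_apply, hc]
  have hsp : special (F'.map (φ : MvPowerSeries (Fin m) k →+* MvPowerSeries (Fin m) k)) =
      special G' := by
    rw [g4]
    exact FG.special_twist f4 φ (fun x hx => by rw [hφc, hx])
  have hN := FG.nrm_iff.1 (FG.nf_map φ f5)
  have hN' := FG.nrm_iff.1 g5
  obtain ⟨hh1, hh2⟩ := FG.hom_height hG'h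
  have heq : F'.map (φ : MvPowerSeries (Fin m) k →+* MvPowerSeries (Fin m) k) = G' := by
    refine unq p (I := FG.mI (Fin m) k) (RingHom.ker_ne_top _) (n := m + 1) (by omega)
      (IsComm.map' f3 _) g3 ?_ ?_ hh1 hh2 ?_ ?_
    · intro i j
      rw [RingHom.mem_ker, map_sub, sub_eq_zero]
      have h1 := congrArg (fun Q => c2 (FormalGroup.toPowerSeries Q) i j) hsp
      exact h1
    · intro i hi
      rw [RingHom.mem_ker, FG.cc_coeff, g4, hΓm]
      exact H86.FG.coeff_mulSer_coprime hΓc hi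
    · intro i hi
      rw [hN i hi, hN' i hi]
    · intro j hj hjn
      have h1 := hφw ⟨j - 1, by omega⟩
      rw [hw] at h1
      have h2 : j - 1 + 1 = j := by omega
      simp only [NF.cf, h2] at h1
      rw [mulSer_map, PowerSeries.coeff_map]
      exact h1
  have h3 := f1.map (φ : MvPowerSeries (Fin m) k →+* MvPowerSeries (Fin m) k)
  rw [heq] at h3
  obtain ⟨V', v1, v2, v3⟩ := g1.inv (hunit V g2)
  have hU : red (PowerSeries.map (φ : MvPowerSeries (Fin m) k →+* MvPowerSeries (Fin m) k) U) =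
      PowerSeries.X := by
    rw [← f2, red, red, map_map']
    refine congrArg (fun ρ => PowerSeries.map ρ U) (RingHom.ext fun x => ?_)
    exact hφc x
  have hV' : red V' = PowerSeries.X := by
    have h4 := congrArg red v2
    rw [red_subst g1.1, g2, red_X] at h4
    have h5 : PowerSeries.subst (PowerSeries.X : PowerSeries k) (red V') = red V' :=
      PowerSeries.X_subst _
    rw [h5] at h4
    exact h4
  refine ⟨φ, _, hφc, h3.comp v1, ?_⟩
  rw [red_subst h3.1, hU, hV', PowerSeries.subst_X PowerSeries.HasSubst.X']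

end Pool.Agent.H49.LX
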